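import Mathlib

namespace Pool.Agent.Results.MP_554556_an.Definite

open Matrix Finset Filter Topology NormedSpace

/-- real quaternions -/
abbrev H : Type := Quaternion ℝ

/-- square quaternion matrices -/
abbrev Mt (ι : Type) : Type := Matrix ι ι H

variable {n : ℕ}

/-- `A k` is skewhermitian for odd `k` and hermitian for even `k`. -/
def Sym (l : ℕ) (A : ℕ → Mt (Fin n)) : Prop :=
  ∀ k ≤ l, (Odd k → (A k)ᴴ = -A k) ∧ (Even k → (A k)ᴴ = A k)

/-- The left side of the equation. -/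
noncomputable def lhs (l : ℕ) (A : ℕ → Mt (Fin n)) (x : ℝ → Fin n → H) (t : ℝ) : Fin n → H :=
  ∑ k ∈ range (l + 1), A k *ᵥ iteratedDeriv k x t

/-- Every solution is bounded. -/
def Bdd (l : ℕ) (A : ℕ → Mt (Fin n)) : Prop :=
  ∀ x : ℝ → Fin n → H, ContDiff ℝ l x → (∀ t, lhs l A x t = 0) → ∃ M, ∀ t, ‖x t‖ ≤ M

/-- Stable boundedness. -/
def Stab (l : ℕ) (A : ℕ → Mt (Fin n)) : Prop :=
  ∃ ε > 0, ∀ A', Sym l A' → (∀ j ≤ l, ∀ a b, ‖A' j a b - A j a b‖ < ε) → Bdd l A'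

/-- The companion matrix `C`. -/
noncomputable def comp (l : ℕ) (A : ℕ → Mt (Fin n)) : Mt (Fin l × Fin n) :=
  of fun p q => if p.1.val + 1 < l then (if q.1.val = p.1.val + 1 ∧ p.2 = q.2 then 1 else 0)
    else -(Ring.inverse (A l) * A q.1) p.2 q.2

/-- The matrix `G`. -/
noncomputable def gm (l : ℕ) (A : ℕ → Mt (Fin n)) : Mt (Fin l × Fin n) :=
  of fun p q => if p.1.val + q.1.val + 1 ≤ l then
    (-1) ^ p.1.val * A (p.1.val + q.1.val + 1) p.2 q.2 else 0

section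
variable {ι : Type} [Fintype ι] [DecidableEq ι]

open Classical in
/-- The matrix `p_λ(C)`. -/
noncomputable def pl (C : Mt ι) (a : H) : Mt ι :=
  if a.im = 0 then C - a.re • 1 else C ^ 2 - (2 * a.re) • C + Quaternion.normSq a • 1

/-- The root subspace of `C` for the class of `a`. -/
def Root (C : Mt ι) (a : H) : Set (ι → H) := {v | (pl C a ^ Fintype.card ι) *ᵥ v = 0}

/-- `a` is an eigenvalue of `C`. -/
def IsEig (C : Mt ι) (a : H) : Prop := ∃ v, v ≠ 0 ∧ C *ᵥ v = fun i => v i * a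

/-- The value `v* K v` (its real part). -/
noncomputable def qf (K : Mt ι) (v : ι → H) : ℝ := (star v ⬝ᵥ K *ᵥ v).re

/-- `S` is `K`-positive or `K`-negative. -/
def Def (K : Mt ι) (S : Set (ι → H)) : Prop :=
  (∀ v ∈ S, v ≠ 0 → 0 < qf K v) ∨ ∀ v ∈ S, v ≠ 0 → qf K v < 0

/-- right multiplication -/
noncomputable def rm (v : ι → H) (μ : H) : ι → H := fun i => v i * μ

omit [DecidableEq ι] in
theorem mv_rm {κ : Type} (M : Matrix κ ι H) (v : ι → H) (μ : H) :
    M *ᵥ rm v μ = fun i => (M *ᵥ v) i * μ := by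
  ext1 i; simp [rm, mulVec, dotProduct, sum_mul, mul_assoc]

omit [DecidableEq ι] in
theorem dot_rm (M : Mt ι) (v w : ι → H) (μ ν : H) :
    star (rm v μ) ⬝ᵥ M *ᵥ rm w ν = star μ * (star v ⬝ᵥ M *ᵥ w) * ν := by
  simp [mv_rm, rm, dotProduct, sum_mul, mul_sum, mul_assoc]

omit [DecidableEq ι] in
theorem star_dot (M : Mt ι) (v w : ι → H) : star (star v ⬝ᵥ M *ᵥ w) = star w ⬝ᵥ Mᴴ *ᵥ v := by
  simp only [dotProduct, mulVec, star_sum, star_mul, mul_sum, conjTranspose_apply, Pi.star_apply,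
    star_star, mul_assoc]
  exact sum_comm

end

@[simp] theorem r1 : (1 : H).re = 1 := rfl
@[simp] theorem i1 : (1 : H).imI = 0 := rfl
@[simp] theorem j1 : (1 : H).imJ = 0 := rfl
@[simp] theorem k1 : (1 : H).imK = 0 := rfl
@[simp] theorem r0 : (0 : H).re = 0 := rfl

theorem re_comm (a b : H) : (a * b).re = (b * a).re := by simp; ring

theorem re_sum {κ : Type} (s : Finset κ) (f : κ → H) : (∑ i ∈ s, f i).re = ∑ i ∈ s, (f i).re :=
  map_sum (QuaternionAlgebra.reₗ _ _ _) f s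

theorem fam (x : ℕ → ℝ → Fin n → H) (h : ∀ k t, HasDerivAt (x k) (x (k + 1) t) t) (l : ℕ) :
    ContDiff ℝ l (x 0) ∧ ∀ j, iteratedDeriv j (x 0) = x j := by
  have : ∀ j, iteratedDeriv j (x 0) = x j := fun j => by
    induction j with
    | zero => simp
    | succ j ih => rw [iteratedDeriv_succ, ih]; exact funext fun t => (h j t).deriv
  exact ⟨contDiff_of_differentiable_iteratedDeriv (n := l) fun m _ => by
    rw [this]; exact fun t => (h m t).differentiableAt, this⟩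

theorem nexp (t : ℝ) (μ : H) : ‖exp (t • μ)‖ = Real.exp (t * μ.re) := by
  rw [Quaternion.norm_exp, ← Real.exp_eq_exp_ℝ]; simp

theorem unb (y z μ : H) (M : ℝ) (h : ∀ t : ℝ, ‖(y + t • z) * exp (t • μ)‖ ≤ M) :
    (z = 0 → y ≠ 0 → μ.re = 0) ∧ (μ.re = 0 → z = 0) := by
  simp only [norm_mul, nexp] at h
  refine ⟨fun hz hy => ?_, fun hμ => ?_⟩
  · by_contra hμ
    have h0 := norm_pos_iff.2 hy
    have := h (M / ‖y‖ / μ.re)
    rw [hz, smul_zero, add_zero, div_mul_cancel₀ _ hμ, ← le_div_iff₀' h0] at this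
    linarith [Real.add_one_le_exp (M / ‖y‖)]
  · by_contra hz
    have h0 := norm_pos_iff.2 hz
    have h1 := h ((|M| + ‖y‖ + 1) / ‖z‖)
    have h2 := norm_sub_norm_le (((|M| + ‖y‖ + 1) / ‖z‖) • z) (-y)
    rw [norm_smul, Real.norm_of_nonneg (by positivity), div_mul_cancel₀ _ h0.ne', norm_neg,
      sub_neg_eq_add, add_comm _ y] at h2
    rw [hμ, mul_zero, Real.exp_zero, mul_one] at h1
    linarith [le_abs_self M]

variable {L : ℕ} {A : ℕ → Mt (Fin n)}

theorem C_lt (v : Fin (L + 1) × Fin n → H) (p : Fin (L + 1)) (a : Fin n) (h : p.val + 1 < L + 1) :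
    (comp (L + 1) A *ᵥ v) (p, a) = v (⟨p + 1, h⟩, a) := by
  simp only [mulVec, dotProduct, comp, of_apply, h, if_true, ite_mul, one_mul, zero_mul]
  rw [sum_eq_single (⟨p + 1, h⟩, a)]
  · simp
  · rintro ⟨q, b⟩ _ hq
    exact if_neg fun hh => hq (Prod.ext (Fin.ext hh.1) hh.2.symm)
  · simp

theorem C_pow (k : ℕ) (v : Fin (L + 1) × Fin n → H) (p : Fin (L + 1)) (a : Fin n)
    (h : p.val + k < L + 1) : ((comp (L + 1) A ^ k) *ᵥ v) (p, a) = v (⟨p + k, h⟩, a) := by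
  induction k generalizing p with
  | zero => simp
  | succ k ih =>
    rw [pow_succ', ← mulVec_mulVec, C_lt _ _ _ (by omega), ih _ (by simp only; omega)]
    congr 2
    exact Fin.ext (by simp only; omega)

theorem C_sol (hA : IsUnit (A (L + 1))) (v : Fin (L + 1) × Fin n → H) :
    ∑ k ∈ range (L + 1 + 1), A k *ᵥ (fun a => ((comp (L + 1) A ^ k) *ᵥ v) (0, a)) = 0 := by
  rw [sum_range_succ, ← Fin.sum_univ_eq_sum_range
    (fun k => A k *ᵥ (fun a => ((comp (L + 1) A ^ k) *ᵥ v) (0, a)))]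
  have e1 : ∀ q : Fin (L + 1), (fun a => ((comp (L + 1) A ^ q.val) *ᵥ v) (0, a)) =
      fun a => v (q, a) := fun q => funext fun a => by
    rw [C_pow _ _ _ _ (by simpa using q.2)]; simp
  have e2 : (fun a => ((comp (L + 1) A ^ (L + 1)) *ᵥ v) (0, a)) =
      -(Ring.inverse (A (L + 1)) *ᵥ ∑ q : Fin (L + 1), A q *ᵥ fun a => v (q, a)) := by
    ext1 a
    rw [pow_succ, ← mulVec_mulVec, C_pow _ _ _ _ (by simp), mulVec_sum]
    simp only [mulVec_mulVec]
    simp [mulVec, dotProduct, comp, Fintype.sum_prod_type]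
  simp only [e1, e2]
  rw [mulVec_neg, mulVec_mulVec, Ring.mul_inverse_cancel _ hA, one_mulVec, add_neg_cancel]

theorem chain (hA : IsUnit (A (L + 1))) (hb : Bdd (L + 1) A) (y z : Fin (L + 1) × Fin n → H)
    (μ : H) (hy : comp (L + 1) A *ᵥ y = rm y μ + z) (hz : comp (L + 1) A *ᵥ z = rm z μ) :
    (z = 0 → y ≠ 0 → μ.re = 0) ∧ (μ.re = 0 → z = 0) := by
  set C := comp (L + 1) A
  let Y : ℝ → Fin (L + 1) × Fin n → H := fun t => rm (y + t • z) (exp (t • μ))
  have hY : ∀ (M : Mt _) t i, HasDerivAt (fun t => (M *ᵥ Y t) i) (((M * C) *ᵥ Y t) i) t := by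
    intro M t i
    have := (((hasDerivAt_id t).smul_const ((M *ᵥ z) i)).const_add ((M *ᵥ y) i)).mul
      (hasDerivAt_exp_smul_const' μ t)
    have e : ∀ (M : Mt _) t, (M *ᵥ Y t) i = ((M *ᵥ y) i + t • (M *ᵥ z) i) * exp (t • μ) := by
      intro M t
      simp only [Y, mv_rm, mulVec_add, mulVec_smul, Pi.add_apply, Pi.smul_apply]
    simp only [e]
    refine this.congr_deriv ?_
    simp only [← mulVec_mulVec, hy, hz, mulVec_add, mv_rm, Pi.add_apply, id, one_smul, add_mul,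
      smul_mul_assoc, mul_assoc]
    abel
  have key : ∀ i, ∃ M, ∀ t : ℝ, ‖(y i + t • z i) * exp (t • μ)‖ ≤ M := by
    rintro ⟨p, a⟩
    obtain ⟨h1, h2⟩ := fam (fun k t a => ((C ^ (k + p.val)) *ᵥ Y t) (0, a)) (fun k t =>
      hasDerivAt_pi.2 fun a => by
        rw [show k + 1 + p.val = k + p.val + 1 by ring, pow_succ]; exact hY _ t _) (L + 1)
    obtain ⟨M, hM⟩ := hb _ h1 fun t => by
      refine (sum_congr rfl fun k _ => ?_).trans (C_sol hA ((C ^ p.val) *ᵥ Y t))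
      rw [h2, mulVec_mulVec, ← pow_add]
    refine ⟨M, fun t => le_trans (le_of_eq ?_) ((norm_le_pi_norm _ a).trans (hM t))⟩
    rw [zero_add, C_pow _ _ _ _ (by simpa using p.2)]
    simp [Y, rm]
  choose M hM using key
  refine ⟨fun h0 h1 => ?_, fun h => funext fun i => (unb _ _ _ _ (hM i)).2 h⟩
  obtain ⟨i, hi⟩ := Function.ne_iff.1 h1
  exact (unb _ _ _ _ (hM i)).1 (congrFun h0 i) hi

/-- first block -/
def b0 (v : Fin (L + 1) × Fin n → H) : Fin n → H := fun a => v (0, a)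

theorem eig_pow {ι : Type} [Fintype ι] [DecidableEq ι] {C : Mt ι} {x : ι → H} {μ : H}
    (h : C *ᵥ x = rm x μ) (k : ℕ) : (C ^ k) *ᵥ x = rm x (μ ^ k) := by
  induction k with
  | zero => ext1 i; simp [rm]
  | succ k ih =>
    rw [pow_succ', ← mulVec_mulVec, ih, mv_rm, h]; ext1 i; simp [rm, pow_succ', mul_assoc]

theorem eig_blk {x : Fin (L + 1) × Fin n → H} {μ : H} (h : comp (L + 1) A *ᵥ x = rm x μ)
    (p : Fin (L + 1)) (a : Fin n) : x (p, a) = b0 x a * μ ^ p.val := by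
  have := C_pow (A := A) p.val x 0 a (by simpa using p.2)
  rw [eig_pow h] at this
  simpa [rm, b0] using this.symm

theorem eig_eq (hA : IsUnit (A (L + 1))) {x : Fin (L + 1) × Fin n → H} {μ : H}
    (h : comp (L + 1) A *ᵥ x = rm x μ) :
    ∑ k ∈ range (L + 1 + 1), A k *ᵥ rm (b0 x) (μ ^ k) = 0 := by
  have := C_sol hA x
  simp only [eig_pow h] at this
  exact this

theorem form {x y : Fin (L + 1) × Fin n → H} {μ ν : H} (hx : comp (L + 1) A *ᵥ x = rm x μ)
    (hy : comp (L + 1) A *ᵥ y = rm y ν) (hν : ν.re = 0) :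
    star y ⬝ᵥ (gm (L + 1) A * comp (L + 1) A) *ᵥ x = ∑ m ∈ range (L + 1), ∑ p ∈ range (m + 1),
      ν ^ p * (star (b0 y) ⬝ᵥ A (m + 1) *ᵥ b0 x) * μ ^ (m - p + 1) := by
  let F : ℕ → ℕ → H := fun p q => ν ^ p * (star (b0 y) ⬝ᵥ A (p + q + 1) *ᵥ b0 x) * μ ^ (q + 1)
  have e1 : star y ⬝ᵥ (gm (L + 1) A * comp (L + 1) A) *ᵥ x = ∑ p : Fin (L + 1),
      ∑ q : Fin (L + 1), if p.val + q.val + 1 ≤ L + 1 then F p q else 0 := by
    rw [← mulVec_mulVec, hx]
    simp only [dotProduct, mulVec, Fintype.sum_prod_type, gm, of_apply, rm, Pi.star_apply, mul_sum]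
    refine sum_congr rfl fun p _ => sum_comm.trans (sum_congr rfl fun q _ => ?_)
    split_ifs
    · simp only [F, dotProduct, mulVec, mul_sum, sum_mul, Pi.star_apply]
      refine sum_congr rfl fun a _ => sum_congr rfl fun b _ => ?_
      rw [eig_blk hy, eig_blk hx, star_mul, star_pow, Quaternion.star_eq_neg.2 hν, neg_pow, pow_succ]
      rcases neg_one_pow_eq_or H p.val with h | h <;> simp [h, mul_assoc]
    · simp
  rw [e1, Fin.sum_univ_eq_sum_range (fun p => ∑ q : Fin (L + 1),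
    if p + q.val + 1 ≤ L + 1 then F p q else 0)]
  have e2 : ∀ p ∈ range (L + 1), (∑ q : Fin (L + 1), if p + q.val + 1 ≤ L + 1 then F p q else 0) =
      ∑ q ∈ range (L + 1 - p), F p q := fun p _ => by
    rw [Fin.sum_univ_eq_sum_range (fun q => if p + q + 1 ≤ L + 1 then F p q else 0), ← sum_filter]
    congr 1
    ext q
    simp only [mem_filter, mem_range]
    omega
  rw [sum_congr rfl e2, ← sum_range_diag_flip]
  refine sum_congr rfl fun m _ => sum_congr rfl fun p hp => ?_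
  simp only [F]
  rw [show p + (m - p) + 1 = m + 1 by have := mem_range.1 hp; omega]

theorem dpow (μ : H) (k : ℕ) :
    ∃ d, HasDerivAt (fun s : ℝ => (s • (1 : H) + μ) ^ k) d 0 ∧ d * μ = (k : ℝ) • μ ^ k := by
  induction k with
  | zero => exact ⟨0, by simpa using hasDerivAt_const (0 : ℝ) (1 : H), by simp⟩
  | succ k ih =>
    obtain ⟨d, h1, h2⟩ := ih
    have := (((hasDerivAt_id (0 : ℝ)).smul_const (1 : H)).add_const μ).mul h1
    simp only [pow_succ']
    refine ⟨_, this, ?_⟩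
    simp only [id, one_smul, zero_smul, zero_add, one_mul, add_mul, mul_assoc, h2, mul_smul_comm,
      ← pow_succ, ← pow_succ', Nat.cast_add, Nat.cast_one, add_smul]
    abel

/-- hermitian correction -/
noncomputable def m0 (N τ : ℝ) (z a : Fin n → H) : Mt (Fin n) := of fun i j =>
  N⁻¹ • (a i * star (z j) + z i * star (a j)) + (N⁻¹ * N⁻¹ * τ) • (z i * star (z j))

/-- skewhermitian correction -/
noncomputable def m1 (N : ℝ) (z : Fin n → H) (β : H) : Mt (Fin n) := of fun i j =>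
  (N⁻¹ * N⁻¹) • (z i * β * star (z j))

theorem m0_h (N τ : ℝ) (z a : Fin n → H) : (m0 N τ z a)ᴴ = m0 N τ z a := by
  ext1 i j
  simp only [m0, conjTranspose_apply, of_apply, star_add, Quaternion.star_smul, star_mul,
    star_star, add_comm]

theorem m1_h (N : ℝ) (z : Fin n → H) (β : H) (h : β.re = 0) : (m1 N z β)ᴴ = -m1 N z β := by
  ext1 i j
  simp only [m1, conjTranspose_apply, of_apply, Quaternion.star_smul, star_mul, star_star,
    Quaternion.star_eq_neg.2 h, Matrix.neg_apply, neg_mul, mul_neg, smul_neg, mul_assoc]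

theorem m0_v {N τ : ℝ} {z a : Fin n → H} (h0 : N ≠ 0) (hN : star z ⬝ᵥ z = N • (1 : H))
    (ha : star z ⬝ᵥ a = (-τ) • (1 : H)) : m0 N τ z a *ᵥ z = a := by
  have az : ∑ j, star (a j) * z j = (-τ) • (1 : H) := by
    simpa [dotProduct] using congrArg star ha
  have zz : ∑ j, star (z j) * z j = N • (1 : H) := hN
  ext1 i
  simp only [m0, mulVec, dotProduct, of_apply, add_mul, smul_mul_assoc, mul_assoc, sum_add_distrib,
    ← smul_sum, ← mul_sum, az, zz, mul_smul_comm, mul_one, smul_add, smul_smul]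
  rw [inv_mul_cancel₀ h0, one_smul, add_assoc, ← add_smul,
    show N⁻¹ * -τ + N⁻¹ * (N⁻¹ * (τ * N)) = 0 by field_simp; ring, zero_smul, add_zero]

theorem m1_v {N : ℝ} {z : Fin n → H} (β : H) (h0 : N ≠ 0) (hN : star z ⬝ᵥ z = N • (1 : H)) :
    m1 N z β *ᵥ z = fun i => N⁻¹ • (z i * β) := by
  have zz : ∑ j, star (z j) * z j = N • (1 : H) := hN
  ext1 i
  simp only [m1, mulVec, dotProduct, of_apply, smul_mul_assoc, mul_assoc, ← smul_sum, ← mul_sum,
    zz, mul_smul_comm, mul_one, smul_smul, inv_mul_cancel₀ h0]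

theorem apply_stab (hs : Sym (L + 1) A) {ε : ℝ} (hε : 0 < ε) (ht : ∀ A', Sym (L + 1) A' →
    (∀ j ≤ L + 1, ∀ a b, ‖A' j a b - A j a b‖ < ε) → Bdd (L + 1) A') (E0 E1 : Mt (Fin n))
    (h0 : E0ᴴ = E0) (h1 : E1ᴴ = -E1) (hsm : ∀ i j, ‖E0 i j‖ < ε ∧ ‖E1 i j‖ < ε) (z : Fin n → H)
    (hz : z ≠ 0) (ν : H)
    (he : ∑ k ∈ range (L + 1 + 1), A k *ᵥ rm z (ν ^ k) + (E1 *ᵥ rm z ν + E0 *ᵥ z) = 0) :
    ν.re = 0 := by
  let B : ℕ → Mt (Fin n) := fun k => if k = 0 then E0 else if k = 1 then E1 else 0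
  have hb := ht (fun k => A k + B k) (fun k hk => ?_) fun j _ i i' => ?_
  · obtain ⟨h1, h2⟩ := fam (fun k t => rm (rm z (ν ^ k)) (exp (t • ν))) (fun k t =>
      hasDerivAt_pi.2 fun a => by
        simpa [rm, pow_succ, mul_assoc] using
          (hasDerivAt_exp_smul_const' ν t).const_mul (z a * ν ^ k)) (L + 1)
    have h3 : ∑ k ∈ range (L + 1 + 1), (A k + B k) *ᵥ rm z (ν ^ k) = 0 := by
      simp only [add_mulVec, sum_add_distrib]
      rw [← he, sum_range_succ' (fun k => B k *ᵥ rm z (ν ^ k)),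
        sum_range_succ' (fun k => B (k + 1) *ᵥ rm z (ν ^ (k + 1)))]
      have : rm z 1 = z := funext fun i => mul_one _
      simp [B, this]
    obtain ⟨M, hM⟩ := hb _ h1 fun t => by
      ext1 i
      simp only [lhs, h2, mv_rm _ (rm _ _), Finset.sum_apply, ← sum_mul]
      rw [← Finset.sum_apply, h3]; simp
    obtain ⟨i, hi⟩ := Function.ne_iff.1 hz
    exact (unb (z i) 0 ν M fun t => le_trans (le_of_eq (by simp [rm]))
      ((norm_le_pi_norm _ i).trans (hM t))).1 rfl hi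
  · simp only [B, conjTranspose_add]
    refine ⟨fun h => ?_, fun h => ?_⟩
    · rw [(hs k hk).1 h, if_neg (by rintro rfl; simp at h), neg_add]
      split_ifs <;> simp [h1]
    · rw [(hs k hk).2 h]
      split_ifs with h2 h3
      · rw [h0]
      · subst h3; simp at h
      · simp
  · simp only [B, Matrix.add_apply, add_sub_cancel_left]
    split_ifs
    · exact (hsm i i').1
    · exact (hsm i i').2
    · simpa using hε

/-- real part -/
noncomputable def reL : H →L[ℝ] ℝ :=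
  LinearMap.toContinuousLinearMap (show H →ₗ[ℝ] ℝ from QuaternionAlgebra.reₗ _ _ _)

theorem perturb (hs : Sym (L + 1) A) (ht : Stab (L + 1) A) (z : Fin n → H) (hz : z ≠ 0) (μ : H)
    (hμ : μ.re = 0) (hμ0 : μ ≠ 0) (he : ∑ k ∈ range (L + 1 + 1), A k *ᵥ rm z (μ ^ k) = 0) :
    ∑ k ∈ range (L + 1 + 1), (k : ℝ) * ((star z ⬝ᵥ A k *ᵥ z) * μ ^ k).re ≠ 0 := by
  intro hq
  obtain ⟨ε, hε, ht⟩ := ht
  obtain ⟨ν, hν⟩ : ∃ ν : ℝ → H, ν = fun s => s • (1 : H) + μ := ⟨_, rfl⟩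
  have νre : ∀ s, (ν s).re = s := fun s => by simp [hν, hμ]
  have ν00 : ν 0 = μ := by simp [hν]
  have ν0 : ∀ s, ν s ≠ 0 := fun s h => by
    have h1 : s = 0 := by rw [← νre s, h, r0]
    exact hμ0 (by rwa [h1, ν00] at h)
  have cν : Continuous ν := by rw [hν]; fun_prop
  obtain ⟨r, hr⟩ : ∃ r : ℝ → Fin n → H,
    r = fun s => ∑ k ∈ range (L + 1 + 1), A k *ᵥ rm z (ν s ^ k) := ⟨_, rfl⟩
  obtain ⟨ρ, hρ'⟩ : ∃ ρ : ℝ → H,
    ρ = fun s => ∑ k ∈ range (L + 1 + 1), (star z ⬝ᵥ A k *ᵥ z) * ν s ^ k := ⟨_, rfl⟩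
  have hρ : ∀ s, star z ⬝ᵥ r s = ρ s := fun s => by
    simp only [hr, hρ', dotProduct_sum, mv_rm]
    simp [dotProduct, sum_mul, mul_assoc]
  have r0 : r 0 = 0 := by simpa [hr, ν00] using he
  have ρ0 : ρ 0 = 0 := by rw [← hρ, r0, dotProduct_zero]
  have cρ : Continuous ρ := by rw [hρ']; fun_prop
  have cr : ∀ i, Continuous fun s => r s i := fun i => by
    simp only [hr, Finset.sum_apply, mv_rm]; fun_prop
  obtain ⟨g, hg'⟩ : ∃ g : ℝ → ℝ, g = fun s => (ρ s * star (ν s)).re := ⟨_, rfl⟩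
  have hg : HasDerivAt g 0 0 := by
    choose d h1 h2 using dpow μ
    have a1 : HasDerivAt ρ (∑ k ∈ range (L + 1 + 1), (star z ⬝ᵥ A k *ᵥ z) * d k) 0 := by
      rw [hρ', hν]
      exact HasDerivAt.fun_sum fun k _ => (h1 k).const_mul (star z ⬝ᵥ A k *ᵥ z)
    have a2 : HasDerivAt (fun s : ℝ => star (ν s)) 1 0 := by
      simpa [hν] using ((hasDerivAt_id (0 : ℝ)).smul_const (1 : H)).add_const (star μ)
    rw [hg']
    refine (reL.hasFDerivAt.comp_hasDerivAt 0 (a1.mul a2)).congr_deriv ?_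
    simp only [ρ0, ν00, zero_mul, add_zero, Quaternion.star_eq_neg.2 hμ, mul_neg,
      sum_mul, mul_assoc, h2, map_neg, neg_eq_zero, mul_smul_comm, map_sum, map_smul]
    exact hq
  have hτ : Tendsto (fun s => s⁻¹ * g s) (𝓝[≠] 0) (𝓝 0) := by
    have : g 0 = 0 := by rw [hg']; simp only [ρ0, zero_mul]; rfl
    simpa [this] using hg.tendsto_slope_zero
  obtain ⟨N, hN0, hN⟩ : ∃ N : ℝ, N ≠ 0 ∧ star z ⬝ᵥ z = N • (1 : H) := by
    refine ⟨∑ a, Quaternion.normSq (z a), ?_, ?_⟩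
    · obtain ⟨a, ha⟩ := Function.ne_iff.1 hz
      exact (sum_pos' (fun a _ => Quaternion.normSq_nonneg) ⟨a, mem_univ a,
        Quaternion.normSq_nonneg.lt_of_ne' (Quaternion.normSq_ne_zero.2 ha)⟩).ne'
    · simp only [dotProduct, Pi.star_apply, Quaternion.star_mul_self, sum_smul]
      exact sum_congr rfl fun a _ => by ext <;> simp
  let β : ℝ × ℝ → H := fun p => (p.2 • (1 : H) - ρ p.1) * (ν p.1)⁻¹
  let a : ℝ × ℝ → Fin n → H := fun p i => -r p.1 i - N⁻¹ • (z i * (p.2 • (1 : H) - ρ p.1))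
  have cβ : Continuous β :=
    Continuous.mul (by fun_prop) ((cν.comp continuous_fst).inv₀ fun p => ν0 _)
  have ca : ∀ i, Continuous fun p => a p i := fun i => by simp only [a]; fun_prop
  have lim : Tendsto (fun s => (s, s⁻¹ * g s)) (𝓝[≠] 0) (𝓝 (0, 0)) :=
    (tendsto_id.mono_left nhdsWithin_le_nhds).prodMk_nhds hτ
  have s0 : ∀ᶠ p in 𝓝 ((0 : ℝ), (0 : ℝ)), ∀ i j,
      ‖m0 N p.2 z (a p) i j‖ < ε ∧ ‖m1 N z (β p) i j‖ < ε := by
    refine eventually_all.2 fun i => eventually_all.2 fun j => Eventually.and ?_ ?_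
    · refine ContinuousAt.eventually_lt (Continuous.continuousAt ?_) continuousAt_const ?_
      · simp only [m0, of_apply]; fun_prop
      · simpa [m0, a, r0, ρ0] using hε
    · refine ContinuousAt.eventually_lt (Continuous.continuousAt ?_) continuousAt_const ?_
      · simp only [m1, of_apply]; fun_prop
      · simpa [m1, β, ρ0] using hε
  obtain ⟨s, hsm, hs0⟩ := ((lim.eventually s0).and self_mem_nhdsWithin).exists
  have hs0 : s ≠ 0 := hs0
  refine hs0 ((νre s).symm.trans (apply_stab hs hε ht _ _ (m0_h _ _ _ _) (m1_h _ _ _ ?_) hsm z hz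
    (ν s) ?_))
  · simp only [β, Quaternion.inv_def, mul_smul_comm, Quaternion.re_smul, sub_mul, smul_mul_assoc,
      one_mul, Quaternion.re_sub, Quaternion.re_star, smul_eq_mul, νre]
    rw [mul_right_comm, inv_mul_cancel₀ hs0, one_mul, hg', sub_self, mul_zero]
  · rw [mv_rm, m1_v _ hN0 hN, m0_v hN0 hN]
    · ext1 i
      change (∑ k ∈ range (L + 1 + 1), A k *ᵥ rm z (ν s ^ k)) i + _ = 0
      simp only [a, β, hr, Pi.add_apply, smul_mul_assoc, mul_assoc, inv_mul_cancel₀ (ν0 s), mul_one]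
      abel
    · have : a (s, s⁻¹ * g s) = -r s - N⁻¹ • rm z ((s⁻¹ * g s) • (1 : H) - ρ s) := rfl
      have h2 : ∀ c, star z ⬝ᵥ rm z c = (star z ⬝ᵥ z) * c := fun c => by
        simp [dotProduct, rm, sum_mul, mul_assoc]
      rw [this, dotProduct_sub, dotProduct_neg, hρ, dotProduct_smul, h2, hN, smul_mul_assoc, one_mul,
        smul_smul, inv_mul_cancel₀ hN0, one_smul, neg_smul]
      abel

theorem dot_sum (y x : Fin n → H) (ν : H) (s : Finset ℕ) :
    star y ⬝ᵥ ∑ k ∈ s, A k *ᵥ rm x (ν ^ k) = ∑ k ∈ s, (star y ⬝ᵥ A k *ᵥ x) * ν ^ k := by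
  simp only [dotProduct_sum, mv_rm]
  simp [dotProduct, sum_mul, mul_assoc]

theorem iso (hs : Sym (L + 1) A) (hA : IsUnit (A (L + 1))) (ht : Stab (L + 1) A)
    {x : Fin (L + 1) × Fin n → H} {μ : H} (hμ : μ.re = 0) (hμ0 : μ ≠ 0)
    (hx : comp (L + 1) A *ᵥ x = rm x μ) (h0 : x ≠ 0) :
    qf (gm (L + 1) A * comp (L + 1) A) x ≠ 0 := by
  have hb : b0 x ≠ 0 := fun h => h0 (funext fun ⟨p, a⟩ => by rw [eig_blk hx, h]; simp)
  have := perturb hs ht _ hb μ hμ hμ0 (eig_eq hA hx)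
  rw [sum_range_succ', Nat.cast_zero, zero_mul, add_zero] at this
  rw [qf, form hx hx hμ, re_sum]
  refine fun h => this (Eq.trans (sum_congr rfl fun m _ => ?_) h)
  rw [re_sum, sum_congr rfl (g := fun _ => (star (b0 x) ⬝ᵥ A (m + 1) *ᵥ b0 x * μ ^ (m + 1)).re)]
  · simp only [sum_const, card_range, nsmul_eq_mul]
  · intro p hp
    rw [mul_assoc, re_comm, mul_assoc, ← pow_add,
      show m - p + 1 + p = m + 1 by have := mem_range.1 hp; omega]

theorem cross (hs : Sym (L + 1) A) (hA : IsUnit (A (L + 1))) {x y : Fin (L + 1) × Fin n → H}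
    {ν : H} (hν : ν.re = 0) (hx : comp (L + 1) A *ᵥ x = rm x ν)
    (hy : comp (L + 1) A *ᵥ y = rm y (-ν)) :
    (star y ⬝ᵥ (gm (L + 1) A * comp (L + 1) A) *ᵥ x).re = 0 := by
  obtain ⟨c, hc⟩ : ∃ c : ℕ → ℝ, c = fun k => (star (b0 y) ⬝ᵥ A k *ᵥ b0 x * ν ^ k).re := ⟨_, rfl⟩
  have h1 : ∑ k ∈ range (L + 1 + 1), c k = 0 := by
    rw [hc, ← re_sum, ← dot_sum, eig_eq hA hx, dotProduct_zero, r0]
  have h2 : ∑ k ∈ range (L + 1 + 1), (-1) ^ k * c k = 0 := by
    have := congrArg (fun v => (star (star (b0 x) ⬝ᵥ v)).re) (eig_eq hA hy)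
    simp only [dot_sum, dotProduct_zero, star_zero, r0, star_sum, re_sum] at this
    refine Eq.trans (sum_congr rfl fun k hk => ?_) this
    have hk := hs k (Nat.lt_succ_iff.1 (mem_range.1 hk))
    rw [star_mul, star_dot, star_pow, star_neg, Quaternion.star_eq_neg.2 hν, neg_neg, re_comm, hc]
    rcases Nat.even_or_odd k with h | h
    · rw [hk.2 h, h.neg_one_pow, one_mul]
    · rw [hk.1 h, h.neg_one_pow, neg_mulVec, dotProduct_neg, neg_mul, neg_mul, one_mul]; rfl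
  have h3 : ∀ k, 2 * ∑ p ∈ range k, (-1 : ℝ) ^ p = 1 - (-1) ^ k := fun k => by
    induction k with
    | zero => simp
    | succ k ih => rw [sum_range_succ, pow_succ]; linarith
  have h4 : ∀ m, (∑ p ∈ range (m + 1), (-ν) ^ p * (star (b0 y) ⬝ᵥ A (m + 1) *ᵥ b0 x) *
      ν ^ (m - p + 1)).re = (c (m + 1) - (-1) ^ (m + 1) * c (m + 1)) / 2 := fun m => by
    rw [re_sum, sum_congr rfl (g := fun p => (-1) ^ p * c (m + 1)), ← sum_mul]
    · linear_combination c (m + 1) / 2 * h3 (m + 1)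
    · intro p hp
      have : (ν ^ p * (star (b0 y) ⬝ᵥ A (m + 1) *ᵥ b0 x * ν ^ (m - p + 1))).re = c (m + 1) := by
        rw [re_comm, mul_assoc, ← pow_add, hc,
          show m - p + 1 + p = m + 1 by have := mem_range.1 hp; omega]
      rcases Nat.even_or_odd p with h | h
      · rw [h.neg_pow, h.neg_one_pow, one_mul, mul_assoc, this]
      · rw [h.neg_pow, h.neg_one_pow, neg_mul, neg_mul, neg_mul, one_mul, mul_assoc, ← this]; rfl
  rw [form hx hy (by simpa using hν), re_sum]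
  simp only [h4]
  rw [← sum_div, sum_sub_distrib]
  rw [sum_range_succ'] at h1 h2
  simp only [pow_zero, one_mul] at h2
  linarith

theorem qf_rm {ι : Type} [Fintype ι] (K : Mt ι) (v : ι → H) (ν : H) :
    qf K (rm v ν) = Quaternion.normSq ν * qf K v := by
  rw [qf, dot_rm, re_comm, ← mul_assoc, Quaternion.self_mul_star, qf]
  simp

theorem qf_smul {ι : Type} [Fintype ι] (K : Mt ι) (v : ι → H) (c : ℝ) :
    qf K (c • v) = c ^ 2 * qf K v := by
  have : c • v = rm v (c : H) := funext fun i => (Quaternion.mul_coe_eq_smul _ _).symm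
  rw [this, qf_rm, Quaternion.normSq_coe]

theorem result (n l : ℕ) (hl : 1 ≤ l) (A : ℕ → Mt (Fin n)) (hs : Sym l A) (hA : IsUnit (A l))
    (ht : Stab l A) (hC : IsUnit (comp l A)) (a : H) (ha : IsEig (comp l A) a) :
    Def (gm l A * comp l A) (Root (comp l A) a) := by
  obtain ⟨L, rfl⟩ : ∃ L, l = L + 1 := ⟨l - 1, by omega⟩
  have hb : Bdd (L + 1) A := by
    obtain ⟨ε, hε, h⟩ := ht
    exact h A hs fun _ _ _ _ => by simpa using hε
  obtain ⟨v0, hv0, he⟩ := ha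
  have are : a.re = 0 := (chain hA hb v0 0 a (by rw [add_zero]; exact he)
    (by ext1 i; simp [rm])).1 rfl hv0
  have a0 : a ≠ 0 := by
    rintro rfl
    obtain ⟨u, hu⟩ := hC
    have : v0 = ((u⁻¹).val * comp (L + 1) A) *ᵥ v0 := by rw [← hu, u.inv_mul, one_mulVec]
    rw [← mulVec_mulVec, he] at this
    exact hv0 (this.trans (by ext1 i; simp [mulVec, dotProduct]))
  have aim : a.im ≠ 0 := fun h => a0 (by rw [← a.re_add_im, h, are]; simp)
  have iso' := fun x μ h1 h2 => iso (x := x) (μ := μ) hs hA ht h1 h2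
  have cr := fun x y ν => cross (x := x) (y := y) (ν := ν) hs hA
  have ch := chain hA hb
  generalize gm (L + 1) A * comp (L + 1) A = K at *
  generalize comp (L + 1) A = C at *
  let μ : H := ⟨0, ‖a‖, 0, 0⟩
  let j : H := ⟨0, 0, 1, 0⟩
  have hn : 0 < Quaternion.normSq μ := by
    have := norm_pos_iff.2 a0
    simp only [μ, Quaternion.normSq_def']
    positivity
  have μ0 : μ ≠ 0 := Quaternion.normSq_ne_zero.1 hn.ne'
  have μ2 : μ * μ = -(Quaternion.normSq a • (1 : H)) := by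
    rw [Quaternion.normSq_eq_norm_mul_self]; ext <;> simp [μ]
  have μj : -μ * j = j * μ := by ext <;> simp [μ, j]
  let T : H → _ → _ := fun ν v => C *ᵥ v - rm v ν
  have TT : ∀ ν, ν * ν = μ * μ → ∀ v, T ν (T (-ν) v) = pl C a *ᵥ v := fun ν hν v => by
    ext1 i
    simp only [T, pl, if_neg aim, are, mul_zero, zero_smul, sub_zero, mulVec_sub, mv_rm,
      add_mulVec, sq, ← mulVec_mulVec, smul_mulVec, one_mulVec, Pi.sub_apply, Pi.add_apply,
      Pi.smul_apply]
    simp only [rm, Pi.sub_apply, sub_mul, mul_neg, neg_mul, mul_assoc, hν, μ2, mul_smul_comm,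
      mul_one]
    abel
  have T1 := TT μ rfl
  have T2 := TT (-μ) (by simp)
  rw [neg_neg] at T2
  have nil : ∀ ν : H, ν.re = 0 → ∀ y, T ν (T ν y) = 0 → T ν y = 0 := fun ν hν y h =>
    (ch y (T ν y) ν (by simp [T]) (sub_eq_zero.1 h)).2 hν
  have P2 : ∀ u, pl C a *ᵥ (pl C a *ᵥ u) = 0 → pl C a *ᵥ u = 0 := fun u h => by
    have h1 : T μ (T (-μ) (T (-μ) u)) = 0 := nil μ rfl _ (by rw [T1 (T (-μ) u), ← T2, T1, T1, h])
    rw [← T2]
    exact nil (-μ) (by simp [μ]) _ (by rw [T2, ← T1, T2, ← T1, h1])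
  have PN : ∀ N v, (pl C a ^ N) *ᵥ v = 0 → pl C a *ᵥ v = 0 := fun N => by
    induction N with
    | zero => intro v h; rw [pow_zero, one_mulVec] at h; rw [h, mulVec_zero]
    | succ N ih => intro v h; rw [pow_succ, ← mulVec_mulVec] at h; exact P2 _ (ih _ h)
  have dec : ∀ v ∈ Root C a, v ≠ 0 → ∃ x y, C *ᵥ x = rm x μ ∧ C *ᵥ y = rm y μ ∧
      (x ≠ 0 ∨ y ≠ 0) ∧ 4 * Quaternion.normSq μ * qf K v = qf K x + qf K y := by
    intro v hv v0
    have hv := PN _ _ hv
    have e1 : C *ᵥ T (-μ) v = rm (T (-μ) v) μ := sub_eq_zero.1 ((T1 v).trans hv)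
    have e2 : C *ᵥ T μ v = rm (T μ v) (-μ) := sub_eq_zero.1 ((T2 v).trans hv)
    have e3 : T (-μ) v - T μ v = (2 : ℝ) • rm v μ := by
      ext1 i; simp only [T, rm, Pi.sub_apply, Pi.smul_apply, mul_neg, two_smul, Pi.add_apply]; abel
    have j1 : Quaternion.normSq j = 1 := by simp [j, Quaternion.normSq_def']
    refine ⟨T (-μ) v, rm (T μ v) j, e1, ?_, ?_, ?_⟩
    · rw [mv_rm, e2]; ext1 i; simp only [rm, mul_assoc, μj]
    · by_contra h
      push Not at h
      have h3 : T μ v = 0 := funext fun i => (mul_eq_zero.1 (congrFun h.2 i)).resolve_right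
        (Quaternion.normSq_ne_zero.1 (by rw [j1]; exact one_ne_zero))
      rw [h.1, h3, sub_zero, eq_comm, smul_eq_zero_iff_right two_ne_zero] at e3
      exact v0 (funext fun i => (mul_eq_zero.1 (congrFun e3 i)).resolve_right μ0)
    · have c1 := cr _ _ μ rfl e1 e2
      have c2 := cr _ _ (-μ) (by simp [μ]) e2 (by rw [neg_neg]; exact e1)
      have c3 := congrArg (qf K) e3
      rw [qf_smul, qf_rm, qf, star_sub, mulVec_sub, sub_dotProduct, dotProduct_sub, dotProduct_sub,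
        Quaternion.re_sub, Quaternion.re_sub, Quaternion.re_sub, c1, c2] at c3
      rw [qf_rm, j1, one_mul, qf, qf, qf]
      unfold qf at c3
      linarith
  have q0 : qf K 0 = 0 := by simp [qf]
  have E : (∀ x, C *ᵥ x = rm x μ → x ≠ 0 → 0 < qf K x) ∨
      ∀ x, C *ᵥ x = rm x μ → x ≠ 0 → qf K x < 0 := by
    by_contra h
    push Not at h
    obtain ⟨⟨x, hx, x0, h1⟩, y, hy, y0, h2⟩ := h
    have h1 := h1.lt_of_ne (iso' x μ rfl μ0 hx x0)
    have h2 := h2.lt_of_ne' (iso' y μ rfl μ0 hy y0)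
    have hc : Continuous fun s : ℝ => qf K ((1 - s) • x + s • y) :=
      Quaternion.continuous_re.comp (by simp only [dotProduct, mulVec]; fun_prop)
    obtain ⟨s, -, h3⟩ := intermediate_value_Icc zero_le_one hc.continuousOn
      (show (0 : ℝ) ∈ Set.Icc _ _ from ⟨by simpa using h1.le, by simpa using h2.le⟩)
    have h4 : (1 - s) • x + s • y = 0 := by
      by_contra h
      refine iso' _ μ rfl μ0 ?_ h h3
      rw [mulVec_add, mulVec_smul, mulVec_smul, hx, hy]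
      ext1 i; simp [rm, add_mul]
    have h5 := congrArg (qf K) (eq_neg_of_add_eq_zero_left h4)
    rw [← neg_smul, qf_smul, qf_smul] at h5
    have h6 : (1 - s) ^ 2 = 0 := by nlinarith [sq_nonneg (1 - s), sq_nonneg (-s)]
    have h7 : (-s) ^ 2 = 0 := by nlinarith [sq_nonneg (1 - s), sq_nonneg (-s)]
    nlinarith [pow_eq_zero_iff (two_ne_zero) |>.1 h6, pow_eq_zero_iff (two_ne_zero) |>.1 h7]
  refine E.imp (fun h v hv v0 => ?_) fun h v hv v0 => ?_ <;>
    obtain ⟨x, y, hx, hy, hxy, e⟩ := dec v hv v0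
  · have : 0 < qf K x + qf K y := by
      by_cases x0 : x = 0 <;> by_cases y0 : y = 0
      · tauto
      · rw [x0, q0]; linarith [h y hy y0]
      · rw [y0, q0]; linarith [h x hx x0]
      · linarith [h y hy y0, h x hx x0]
    nlinarith
  · have : qf K x + qf K y < 0 := by
      by_cases x0 : x = 0 <;> by_cases y0 : y = 0
      · tauto
      · rw [x0, q0]; linarith [h y hy y0]
      · rw [y0, q0]; linarith [h x hx x0]
      · linarith [h y hy y0, h x hx x0]
    nlinarith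

end Pool.Agent.Results.MP_554556_an.Definite
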